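import Pool.Agent.Q97.Renorm

set_option autoImplicit false

/-!
# The spherical Bishop-Phelps-Bollobas modulus can exceed one for range spaces with property beta

Let `Y` be the plane with the octagonal norm `max (|a|, |b|, 7/10 |a + b|, 7/10 |a - b|)` and
let `X` be the five-dimensional `ℓ₁` space.  The space `Y` has property beta with constant `5 / 7`,
and the spherical modulus of `(X, Y)` at `19 / 20` is at least `11 / 10`.
-/

namespace Pool.Agent.Results.MP_c24244_an.OctagonCounterexample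

open Q97

section Definitions

variable (X Y : Type*) [NormedAddCommGroup X] [NormedSpace ℝ X] [NormedAddCommGroup Y]
  [NormedSpace ℝ Y]

/-- The set of the pairs `(x, T)` with `‖x‖ = ‖T‖ = 1` and `‖T x‖ > 1 - ε`. -/
def PiS (ε : ℝ) : Set (X × (X →L[ℝ] Y)) :=
  {p | ‖p.1‖ = 1 ∧ ‖p.2‖ = 1 ∧ 1 - ε < ‖p.2 p.1‖}

/-- The set of the pairs `(z, F)` with `‖z‖ = ‖F‖ = ‖F z‖ = 1`. -/
def PiA : Set (X × (X →L[ℝ] Y)) :=
  {p | ‖p.1‖ = 1 ∧ ‖p.2‖ = 1 ∧ ‖p.2 p.1‖ = 1}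

/-- The spherical Bishop-Phelps-Bollobas modulus. -/
noncomputable def PhiS (ε : ℝ) : ℝ :=
  sSup {r : ℝ | ∃ p ∈ PiS X Y ε,
    r = sInf {m : ℝ | ∃ q ∈ PiA X Y, m = max ‖p.1 - q.1‖ ‖p.2 - q.2‖}}

/-- Property beta with constant `ρ`. -/
def HasPropertyBeta (ρ : ℝ) : Prop :=
  ∃ (Λ : Type) (y : Λ → Y) (ys : Λ → StrongDual ℝ Y),
    (∀ α, ‖y α‖ = 1) ∧ (∀ α, ‖ys α‖ = 1) ∧ (∀ α, ys α (y α) = 1) ∧
    (∀ α γ, α ≠ γ → |ys α (y γ)| ≤ ρ) ∧ ∀ v : Y, IsLUB {r : ℝ | ∃ α, r = |ys α v|} ‖v‖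

end Definitions

/-- The four functionals defining the octagonal norm. -/
noncomputable def ψ : Fin 4 → (ℝ × ℝ →ₗ[ℝ] ℝ) :=
  ![LinearMap.fst ℝ ℝ ℝ, LinearMap.snd ℝ ℝ ℝ,
    (7 / 10 : ℝ) • (LinearMap.fst ℝ ℝ ℝ + LinearMap.snd ℝ ℝ ℝ),
    (7 / 10 : ℝ) • (LinearMap.fst ℝ ℝ ℝ - LinearMap.snd ℝ ℝ ℝ)]

theorem ψ0 (v : ℝ × ℝ) : ψ 0 v = v.1 := rfl
theorem ψ1 (v : ℝ × ℝ) : ψ 1 v = v.2 := rfl
theorem ψ2 (v : ℝ × ℝ) : ψ 2 v = 7 / 10 * (v.1 + v.2) := rfl
theorem ψ3 (v : ℝ × ℝ) : ψ 3 v = 7 / 10 * (v.1 - v.2) := rfl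

theorem norm_fst_le' (v : ℝ × ℝ) : |v.1| ≤ ‖v‖ := norm_fst_le v
theorem norm_snd_le' (v : ℝ × ℝ) : |v.2| ≤ ‖v‖ := norm_snd_le v

theorem ψ_le (i : Fin 4) (v : ℝ × ℝ) : |ψ i v| ≤ 2 * ‖v‖ := by
  have h1 := abs_le.mp (norm_fst_le' v)
  have h2 := abs_le.mp (norm_snd_le' v)
  have h3 := norm_nonneg v
  fin_cases i
  · change |ψ 0 v| ≤ _
    rw [ψ0, abs_le]; constructor <;> linarith
  · change |ψ 1 v| ≤ _
    rw [ψ1, abs_le]; constructor <;> linarith
  · change |ψ 2 v| ≤ _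
    rw [ψ2, abs_le]; constructor <;> linarith
  · change |ψ 3 v| ≤ _
    rw [ψ3, abs_le]; constructor <;> linarith

/-- The octagonal norm. -/
noncomputable def E : EqNorm ℝ (ℝ × ℝ) :=
  EqNorm.ofSup (fun i v => |ψ i v|)
    (fun i v w => by rw [map_add]; exact abs_add_le _ _)
    (fun i c v => by rw [map_smul, smul_eq_mul, abs_mul, Real.norm_eq_abs])
    2 ψ_le 1 (fun v b h => by
      rw [one_mul, Prod.norm_def]
      exact max_le (h 0) (h 1))

theorem ψ_le_N (i : Fin 4) (v : ℝ × ℝ) : |ψ i v| ≤ E.N v :=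
  EqNorm.le_ofSup (fun (i : Fin 4) (v : ℝ × ℝ) => |ψ i v|) _ _ _ _ _ _ i v

theorem N_le {v : ℝ × ℝ} {b : ℝ} (h : ∀ i, |ψ i v| ≤ b) : E.N v ≤ b :=
  EqNorm.ofSup_le (fun (i : Fin 4) (v : ℝ × ℝ) => |ψ i v|) _ _ _ _ _ _ h

theorem N_le' {v : ℝ × ℝ} {b : ℝ} (h0 : |v.1| ≤ b) (h1 : |v.2| ≤ b)
    (h2 : |7 / 10 * (v.1 + v.2)| ≤ b) (h3 : |7 / 10 * (v.1 - v.2)| ≤ b) : E.N v ≤ b := by
  apply N_le
  intro i
  fin_cases i
  · exact h0
  · exact h1
  · exact h2
  · exact h3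

theorem exists_eq (v : ℝ × ℝ) : ∃ i, |ψ i v| = E.N v := by
  obtain ⟨i, hi⟩ := exists_eq_ciSup_of_finite (f := fun i : Fin 4 => |ψ i v|)
  exact ⟨i, hi⟩

/-- The range space. -/
abbrev Y := E.Space

/-- The functionals on the range space. -/
noncomputable def ys (i : Fin 4) : StrongDual ℝ Y :=
  LinearMap.mkContinuous ((ψ i).comp E.toSpace.symm.toLinearMap) 1 (fun v => by
    rw [one_mul]
    exact ψ_le_N i (E.toSpace.symm v))

theorem ys_apply (i : Fin 4) (v : Y) : ys i v = ψ i (E.toSpace.symm v) := rfl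

theorem abs_ys_le (i : Fin 4) (v : Y) : |ys i v| ≤ ‖v‖ := ψ_le_N i (E.toSpace.symm v)

theorem norm_ys_le (i : Fin 4) : ‖ys i‖ ≤ 1 := LinearMap.mkContinuous_norm_le _ zero_le_one _

/-- The midpoints of four edges. -/
noncomputable def mid : Fin 4 → Y :=
  ![E.toSpace (1, 0), E.toSpace (0, 1), E.toSpace (5 / 7, 5 / 7), E.toSpace (5 / 7, -(5 / 7))]

theorem norm_mid_le (i : Fin 4) : ‖mid i‖ ≤ 1 := by
  fin_cases i
  · change E.N (1, 0) ≤ 1
    apply N_le' <;> norm_num [abs_le]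
  · change E.N (0, 1) ≤ 1
    apply N_le' <;> norm_num [abs_le]
  · change E.N (5 / 7, 5 / 7) ≤ 1
    apply N_le' <;> norm_num [abs_le]
  · change E.N (5 / 7, -(5 / 7)) ≤ 1
    apply N_le' <;> norm_num [abs_le]

theorem ys_mid (i : Fin 4) : ys i (mid i) = 1 := by
  fin_cases i
  · change (1 : ℝ) = 1
    rfl
  · change (1 : ℝ) = 1
    rfl
  · change (7 / 10 : ℝ) * (5 / 7 + 5 / 7) = 1
    norm_num
  · change (7 / 10 : ℝ) * (5 / 7 - -(5 / 7)) = 1
    norm_num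

theorem beta : HasPropertyBeta Y (5 / 7) := by
  refine ⟨Fin 4, mid, ys, ?_, ?_, ys_mid, ?_, ?_⟩
  · intro i
    apply le_antisymm (norm_mid_le i)
    have := abs_ys_le i (mid i)
    rwa [ys_mid, abs_one] at this
  · intro i
    apply le_antisymm (norm_ys_le i)
    have h1 := (ys i).le_opNorm (mid i)
    rw [ys_mid, norm_one] at h1
    have h2 := mul_le_mul_of_nonneg_left (norm_mid_le i) (ContinuousLinearMap.opNorm_nonneg (ys i))
    linarith
  · intro i j hij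
    fin_cases i <;> fin_cases j
    · exact absurd rfl hij
    · change |(0 : ℝ)| ≤ 5 / 7
      norm_num
    · change |(5 / 7 : ℝ)| ≤ 5 / 7
      norm_num [abs_le]
    · change |(5 / 7 : ℝ)| ≤ 5 / 7
      norm_num [abs_le]
    · change |(0 : ℝ)| ≤ 5 / 7
      norm_num
    · exact absurd rfl hij
    · change |(5 / 7 : ℝ)| ≤ 5 / 7
      norm_num [abs_le]
    · change |(-(5 / 7) : ℝ)| ≤ 5 / 7
      norm_num [abs_le]
    · change |(7 / 10 : ℝ) * (1 + 0)| ≤ 5 / 7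
      norm_num [abs_le]
    · change |(7 / 10 : ℝ) * (0 + 1)| ≤ 5 / 7
      norm_num [abs_le]
    · exact absurd rfl hij
    · change |(7 / 10 : ℝ) * (5 / 7 + -(5 / 7))| ≤ 5 / 7
      norm_num
    · change |(7 / 10 : ℝ) * (1 - 0)| ≤ 5 / 7
      norm_num [abs_le]
    · change |(7 / 10 : ℝ) * (0 - 1)| ≤ 5 / 7
      norm_num [abs_le]
    · change |(7 / 10 : ℝ) * (5 / 7 - 5 / 7)| ≤ 5 / 7
      norm_num
    · exact absurd rfl hij
  · intro v
    obtain ⟨i, hi⟩ := exists_eq (E.toSpace.symm v)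
    constructor
    · rintro _ ⟨j, rfl⟩
      exact abs_ys_le j v
    · intro b hb
      have := hb ⟨i, rfl⟩
      have h2 : |ys i v| = ‖v‖ := hi
      rwa [h2] at this

/-- The domain space. -/
abbrev X := PiLp 1 (fun _ : Fin 5 => ℝ)

theorem norm_X (x : X) : ‖x‖ = ∑ i, |x i| := PiLp.norm_eq_of_L1 x

/-- The images of the unit vectors. -/
noncomputable def t : Fin 5 → ℝ × ℝ :=
  ![(1, 0), (0, 1), (-(5 / 7), 5 / 7), (-(5 / 7), -(5 / 7)), (0, -1)]

theorem N_t_le (i : Fin 5) : E.N (t i) ≤ 1 := by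
  fin_cases i
  · change E.N (1, 0) ≤ 1
    apply N_le' <;> norm_num [abs_le]
  · change E.N (0, 1) ≤ 1
    apply N_le' <;> norm_num [abs_le]
  · change E.N (-(5 / 7), 5 / 7) ≤ 1
    apply N_le' <;> norm_num [abs_le]
  · change E.N (-(5 / 7), -(5 / 7)) ≤ 1
    apply N_le' <;> norm_num [abs_le]
  · change E.N (0, -1) ≤ 1
    apply N_le' <;> norm_num [abs_le]

/-- The operator. -/
noncomputable def T : X →L[ℝ] Y :=
  LinearMap.mkContinuous
    { toFun := fun x => ∑ i, x i • E.toSpace (t i)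
      map_add' := fun x y => by
        rw [← Finset.sum_add_distrib]
        exact Finset.sum_congr rfl fun i _ => by rw [PiLp.add_apply, add_smul]
      map_smul' := fun c x => by
        rw [Finset.smul_sum]
        exact Finset.sum_congr rfl fun i _ => by
          rw [PiLp.smul_apply, smul_eq_mul, mul_smul, RingHom.id_apply] } 1 (fun x => by
      rw [one_mul, norm_X]
      refine (norm_sum_le Finset.univ (fun i => x i • (E.toSpace (t i) : Y))).trans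
        (Finset.sum_le_sum fun i _ => ?_)
      rw [norm_smul, Real.norm_eq_abs]
      have h1 : ‖E.toSpace (t i)‖ ≤ 1 := N_t_le i
      exact (mul_le_mul_of_nonneg_left h1 (abs_nonneg _)).trans (by rw [mul_one]))

theorem T_apply (x : X) : T x = ∑ i, x i • (E.toSpace (t i) : Y) := rfl

/-- The unit vectors. -/
noncomputable def e (i : Fin 5) : X := WithLp.toLp 1 (Pi.single i 1)

theorem e_apply (i j : Fin 5) : e i j = if j = i then 1 else 0 := by
  change (Pi.single i (1 : ℝ) : Fin 5 → ℝ) j = _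
  rw [Pi.single_apply]

theorem norm_e (i : Fin 5) : ‖e i‖ = 1 := by
  rw [norm_X, Finset.sum_eq_single i]
  · rw [e_apply, if_pos rfl, abs_one]
  · intro j _ hj
    rw [e_apply, if_neg hj, abs_zero]
  · intro h; exact absurd (Finset.mem_univ _) h

theorem T_e (i : Fin 5) : T (e i) = E.toSpace (t i) := by
  rw [T_apply, Finset.sum_eq_single i]
  · rw [e_apply, if_pos rfl, one_smul]
  · intro j _ hj
    rw [e_apply, if_neg hj, zero_smul]
  · intro h; exact absurd (Finset.mem_univ _) h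

theorem norm_T_le : ‖T‖ ≤ 1 := LinearMap.mkContinuous_norm_le _ zero_le_one _

theorem norm_T_e0 : ‖T (e 0)‖ = 1 := by
  rw [T_e]
  apply le_antisymm (N_t_le 0)
  have : |ψ 0 (t 0)| ≤ E.N (t 0) := ψ_le_N 0 (t 0)
  have h : ψ 0 (t 0) = 1 := rfl
  rwa [h, abs_one] at this

theorem norm_T : ‖T‖ = 1 := by
  apply le_antisymm norm_T_le
  have h1 := T.le_opNorm (e 0)
  rw [norm_T_e0, norm_e, mul_one] at h1
  exact h1

/-- The point at which the operator is far from attaining its norm. -/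
noncomputable def x₀ : X := WithLp.toLp 1 (fun _ => 1 / 5)

theorem x₀_apply (i : Fin 5) : x₀ i = 1 / 5 := rfl

theorem norm_x₀ : ‖x₀‖ = 1 := by
  rw [norm_X, Fin.sum_univ_five]
  simp only [x₀_apply]
  norm_num [abs_of_pos]

theorem norm_T_x₀ : 3 / 35 ≤ ‖T x₀‖ := by
  have h1 : |ys 0 (T x₀)| ≤ ‖T x₀‖ := abs_ys_le 0 _
  have h2 : ys 0 (T x₀) = -(3 / 35) := by
    have h3 : ∀ i, ys 0 (E.toSpace (t i)) = (t i).1 := fun i => rfl
    rw [T_apply, map_sum, Fin.sum_univ_five]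
    simp only [map_smul, x₀_apply, smul_eq_mul, h3]
    change (1 / 5 : ℝ) * 1 + 1 / 5 * 0 + 1 / 5 * (-(5 / 7)) + 1 / 5 * (-(5 / 7)) + 1 / 5 * 0 = _
    norm_num
  rw [h2, abs_neg, abs_of_nonneg (by norm_num)] at h1
  exact h1

/-- The distance estimate in the domain. -/
theorem far_domain {z : X} (hz : ‖z‖ = 1) {i j k : Fin 5} (hij : i ≠ j) (hik : i ≠ k) (hjk : j ≠ k)
    (hi : z i ≤ 0) (hj : z j ≤ 0) (hk : z k ≤ 0) : 6 / 5 ≤ ‖x₀ - z‖ := by
  rw [norm_X] at hz ⊢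
  have h1 : ∀ l, |z l| + (if z l ≤ 0 then 1 / 5 else -(1 / 5)) ≤ |(x₀ - z) l| := by
    intro l
    rw [PiLp.sub_apply, x₀_apply]
    split_ifs with h
    · rw [abs_of_nonpos h, abs_of_nonneg (by linarith)]
      linarith
    · have := neg_abs_le (1 / 5 - z l)
      rw [abs_of_pos (not_le.mp h)]
      linarith
  have h2 := Finset.sum_le_sum fun l (_ : l ∈ Finset.univ) => h1 l
  rw [Finset.sum_add_distrib, hz] at h2
  have h3 : (1 / 5 : ℝ) ≤ ∑ l, if z l ≤ 0 then (1 / 5 : ℝ) else -(1 / 5) := by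
    have h4 : ∀ l, (if l = i ∨ l = j ∨ l = k then (1 / 5 : ℝ) else -(1 / 5)) ≤
        if z l ≤ 0 then (1 / 5 : ℝ) else -(1 / 5) := by
      intro l
      by_cases hl : l = i ∨ l = j ∨ l = k
      · rw [if_pos hl]
        have : z l ≤ 0 := by
          rcases hl with rfl | rfl | rfl
          · exact hi
          · exact hj
          · exact hk
        rw [if_pos this]
      · rw [if_neg hl]
        split_ifs <;> norm_num
    refine le_trans ?_ (Finset.sum_le_sum fun l _ => h4 l)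
    have h5 : ∀ i j k : Fin 5, i ≠ j → i ≠ k → j ≠ k →
        (Finset.univ.filter fun l : Fin 5 => l = i ∨ l = j ∨ l = k).card = 3 ∧
        (Finset.univ.filter fun l : Fin 5 => ¬(l = i ∨ l = j ∨ l = k)).card = 2 := by decide
    obtain ⟨h6, h7⟩ := h5 i j k hij hik hjk
    rw [Finset.sum_ite, Finset.sum_const, Finset.sum_const, h6, h7]
    norm_num
  linarith

/-- The values of the four functionals on the images of the unit vectors. -/
theorem no_close {z : X} {F : X →L[ℝ] Y} (hz : ‖z‖ = 1) (hF : ‖F‖ = 1) (hFz : ‖F z‖ = 1)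
    (h1 : ‖x₀ - z‖ < 11 / 10) (h2 : ‖T - F‖ < 11 / 10) : False := by
  set f : Fin 5 → ℝ × ℝ := fun i => E.toSpace.symm (F (e i)) with hf
  have hfN : ∀ i, E.N (f i) ≤ 1 := by
    intro i
    have h3 := F.le_opNorm (e i)
    rw [hF, norm_e, mul_one] at h3
    exact h3
  have htf : ∀ i, E.N (t i - f i) < 11 / 10 := by
    intro i
    have h3 := (T - F).le_opNorm (e i)
    rw [norm_e, mul_one] at h3
    have h4 : (T - F) (e i) = E.toSpace (t i - f i) := by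
      change T (e i) - F (e i) = _
      rw [T_e, map_sub]
      rfl
    rw [h4] at h3
    exact lt_of_le_of_lt h3 h2
  -- a functional norming the image
  have hzsum : z = ∑ i, z i • e i := by
    ext j
    have h3 : (∑ i, z i • e i : X) j = ∑ i, (z i • e i : X) j := by
      rw [WithLp.ofLp_sum, Finset.sum_apply]
    rw [h3, Finset.sum_eq_single j]
    · rw [PiLp.smul_apply, e_apply, if_pos rfl, smul_eq_mul, mul_one]
    · intro i _ hij
      rw [PiLp.smul_apply, e_apply, if_neg (Ne.symm hij), smul_eq_mul, mul_zero]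
    · intro h; exact absurd (Finset.mem_univ _) h
  obtain ⟨j, hj⟩ := exists_eq (E.toSpace.symm (F z))
  have hj' : |ψ j (E.toSpace.symm (F z))| = 1 := by
    rw [hj]; exact hFz
  have hval : ψ j (E.toSpace.symm (F z)) = ∑ i, z i * ψ j (f i) := by
    have h3 : ys j (F z) = ∑ i, z i * ys j (F (e i)) := by
      conv_lhs => rw [hzsum]
      rw [map_sum, map_sum]
      exact Finset.sum_congr rfl fun i _ => by rw [map_smul, map_smul, smul_eq_mul]
    exact h3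
  obtain ⟨s, hs, hs1⟩ : ∃ s : ℝ, (s = 1 ∨ s = -1) ∧ s * ψ j (E.toSpace.symm (F z)) = 1 := by
    rcases abs_eq (zero_le_one) |>.mp hj' with h | h
    · exact ⟨1, Or.inl rfl, by rw [h]; norm_num⟩
    · exact ⟨-1, Or.inr rfl, by rw [h]; norm_num⟩
  have habs : ∀ i, |ψ j (f i)| ≤ 1 := fun i => (ψ_le_N j (f i)).trans (hfN i)
  have hsabs : ∀ i, |s * ψ j (f i)| ≤ 1 := by
    intro i
    rw [abs_mul]
    rcases hs with h | h
    · rw [h, abs_one, one_mul]; exact habs i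
    · rw [h, abs_neg, abs_one, one_mul]; exact habs i
  -- all terms are extremal
  have hterm : ∀ i, z i * (s * ψ j (f i)) = |z i| := by
    have h3 : ∑ i, (|z i| - z i * (s * ψ j (f i))) = 0 := by
      rw [Finset.sum_sub_distrib, ← norm_X, hz]
      have h4 : ∑ i, z i * (s * ψ j (f i)) = s * ∑ i, z i * ψ j (f i) := by
        rw [Finset.mul_sum]
        exact Finset.sum_congr rfl fun i _ => by ring
      rw [h4, ← hval, hs1]
      norm_num
    have h5 : ∀ i ∈ Finset.univ, 0 ≤ |z i| - z i * (s * ψ j (f i)) := by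
      intro i _
      have h6 : z i * (s * ψ j (f i)) ≤ |z i * (s * ψ j (f i))| := le_abs_self _
      rw [abs_mul] at h6
      have h7 := mul_le_mul_of_nonneg_left (hsabs i) (abs_nonneg (z i))
      linarith
    intro i
    have := (Finset.sum_eq_zero_iff_of_nonneg h5).mp h3 i (Finset.mem_univ i)
    linarith
  have hpos : ∀ i, 0 < z i → s * ψ j (f i) = 1 := by
    intro i hi
    have h3 := hterm i
    rw [abs_of_pos hi] at h3
    exact mul_left_cancel₀ hi.ne' (by rw [h3, mul_one])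
  -- coordinate inequalities
  have b0 : ∀ i, |(f i).1| ≤ 1 := fun i => (ψ_le_N 0 (f i)).trans (hfN i)
  have b1 : ∀ i, |(f i).2| ≤ 1 := fun i => (ψ_le_N 1 (f i)).trans (hfN i)
  have b2 : ∀ i, |7 / 10 * ((f i).1 + (f i).2)| ≤ 1 := fun i => (ψ_le_N 2 (f i)).trans (hfN i)
  have b3 : ∀ i, |7 / 10 * ((f i).1 - (f i).2)| ≤ 1 := fun i => (ψ_le_N 3 (f i)).trans (hfN i)
  have c0 : ∀ i, |(t i).1 - (f i).1| < 11 / 10 := fun i => (ψ_le_N 0 (t i - f i)).trans_lt (htf i)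
  have c1 : ∀ i, |(t i).2 - (f i).2| < 11 / 10 := fun i => (ψ_le_N 1 (t i - f i)).trans_lt (htf i)
  have c2 : ∀ i, |7 / 10 * (((t i).1 - (f i).1) + ((t i).2 - (f i).2))| < 11 / 10 :=
    fun i => (ψ_le_N 2 (t i - f i)).trans_lt (htf i)
  have c3 : ∀ i, |7 / 10 * (((t i).1 - (f i).1) - ((t i).2 - (f i).2))| < 11 / 10 :=
    fun i => (ψ_le_N 3 (t i - f i)).trans_lt (htf i)
  have t0 : (t 0).1 = 1 ∧ (t 0).2 = 0 := ⟨rfl, rfl⟩
  have t1 : (t 1).1 = 0 ∧ (t 1).2 = 1 := ⟨rfl, rfl⟩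
  have t2 : (t 2).1 = -(5 / 7) ∧ (t 2).2 = 5 / 7 := ⟨rfl, rfl⟩
  have t3 : (t 3).1 = -(5 / 7) ∧ (t 3).2 = -(5 / 7) := ⟨rfl, rfl⟩
  have t4 : (t 4).1 = 0 ∧ (t 4).2 = -1 := ⟨rfl, rfl⟩
  simp only [abs_le, abs_lt] at b0 b1 b2 b3 c0 c1 c2 c3
  have h65 : ¬ (6 / 5 ≤ ‖x₀ - z‖) := by linarith
  have hj4 : j = 0 ∨ j = 1 ∨ j = 2 ∨ j = 3 := by fin_cases j <;> simp
  -- the contradiction for an index far from the edge
  have far : ∀ i, (s * ψ j (f i) = 1 → False) → z i ≤ 0 := by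
    intro i hi
    by_contra h
    exact hi (hpos i (not_le.mp h))
  rcases hj4 with rfl | rfl | rfl | rfl <;> rcases hs with rfl | rfl
  · apply h65
    refine far_domain hz (i := 1) (j := 2) (k := 3) (by decide) (by decide) (by decide)
      (far 1 fun h => ?_) (far 2 fun h => ?_) (far 3 fun h => ?_) <;> rw [ψ0] at h
    · linarith [b0 1, b1 1, b2 1, b3 1, c0 1, c1 1, c2 1, c3 1]
    · linarith [b0 2, b1 2, b2 2, b3 2, c0 2, c1 2, c2 2, c3 2]
    · linarith [b0 3, b1 3, b2 3, b3 3, c0 3, c1 3, c2 3, c3 3]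
  · apply h65
    refine far_domain hz (i := 0) (j := 1) (k := 4) (by decide) (by decide) (by decide)
      (far 0 fun h => ?_) (far 1 fun h => ?_) (far 4 fun h => ?_) <;> rw [ψ0] at h
    · linarith [b0 0, b1 0, b2 0, b3 0, c0 0, c1 0, c2 0, c3 0]
    · linarith [b0 1, b1 1, b2 1, b3 1, c0 1, c1 1, c2 1, c3 1]
    · linarith [b0 4, b1 4, b2 4, b3 4, c0 4, c1 4, c2 4, c3 4]
  · apply h65
    refine far_domain hz (i := 0) (j := 3) (k := 4) (by decide) (by decide) (by decide)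
      (far 0 fun h => ?_) (far 3 fun h => ?_) (far 4 fun h => ?_) <;> rw [ψ1] at h
    · linarith [b0 0, b1 0, b2 0, b3 0, c0 0, c1 0, c2 0, c3 0]
    · linarith [b0 3, b1 3, b2 3, b3 3, c0 3, c1 3, c2 3, c3 3]
    · linarith [b0 4, b1 4, b2 4, b3 4, c0 4, c1 4, c2 4, c3 4]
  · apply h65
    refine far_domain hz (i := 0) (j := 1) (k := 2) (by decide) (by decide) (by decide)
      (far 0 fun h => ?_) (far 1 fun h => ?_) (far 2 fun h => ?_) <;> rw [ψ1] at h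
    · linarith [b0 0, b1 0, b2 0, b3 0, c0 0, c1 0, c2 0, c3 0]
    · linarith [b0 1, b1 1, b2 1, b3 1, c0 1, c1 1, c2 1, c3 1]
    · linarith [b0 2, b1 2, b2 2, b3 2, c0 2, c1 2, c2 2, c3 2]
  · apply h65
    refine far_domain hz (i := 2) (j := 3) (k := 4) (by decide) (by decide) (by decide)
      (far 2 fun h => ?_) (far 3 fun h => ?_) (far 4 fun h => ?_) <;> rw [ψ2] at h
    · linarith [b0 2, b1 2, b2 2, b3 2, c0 2, c1 2, c2 2, c3 2]
    · linarith [b0 3, b1 3, b2 3, b3 3, c0 3, c1 3, c2 3, c3 3]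
    · linarith [b0 4, b1 4, b2 4, b3 4, c0 4, c1 4, c2 4, c3 4]
  · apply h65
    refine far_domain hz (i := 0) (j := 1) (k := 2) (by decide) (by decide) (by decide)
      (far 0 fun h => ?_) (far 1 fun h => ?_) (far 2 fun h => ?_) <;> rw [ψ2] at h
    · linarith [b0 0, b1 0, b2 0, b3 0, c0 0, c1 0, c2 0, c3 0]
    · linarith [b0 1, b1 1, b2 1, b3 1, c0 1, c1 1, c2 1, c3 1]
    · linarith [b0 2, b1 2, b2 2, b3 2, c0 2, c1 2, c2 2, c3 2]
  · apply h65
    refine far_domain hz (i := 1) (j := 2) (k := 3) (by decide) (by decide) (by decide)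
      (far 1 fun h => ?_) (far 2 fun h => ?_) (far 3 fun h => ?_) <;> rw [ψ3] at h
    · linarith [b0 1, b1 1, b2 1, b3 1, c0 1, c1 1, c2 1, c3 1]
    · linarith [b0 2, b1 2, b2 2, b3 2, c0 2, c1 2, c2 2, c3 2]
    · linarith [b0 3, b1 3, b2 3, b3 3, c0 3, c1 3, c2 3, c3 3]
  · apply h65
    refine far_domain hz (i := 0) (j := 3) (k := 4) (by decide) (by decide) (by decide)
      (far 0 fun h => ?_) (far 3 fun h => ?_) (far 4 fun h => ?_) <;> rw [ψ3] at h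
    · linarith [b0 0, b1 0, b2 0, b3 0, c0 0, c1 0, c2 0, c3 0]
    · linarith [b0 3, b1 3, b2 3, b3 3, c0 3, c1 3, c2 3, c3 3]
    · linarith [b0 4, b1 4, b2 4, b3 4, c0 4, c1 4, c2 4, c3 4]

theorem modulus : 11 / 10 ≤ PhiS X Y (19 / 20) := by
  have hbdd : ∀ r ∈ {r : ℝ | ∃ p ∈ PiS X Y (19 / 20),
      r = sInf {m : ℝ | ∃ q ∈ PiA X Y, m = max ‖p.1 - q.1‖ ‖p.2 - q.2‖}}, r ≤ 2 := by
    rintro r ⟨p, hp, rfl⟩
    have h1 : sInf {m : ℝ | ∃ q ∈ PiA X Y, m = max ‖p.1 - q.1‖ ‖p.2 - q.2‖} ≤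
        max ‖p.1 - e 0‖ ‖p.2 - T‖ := by
      apply csInf_le
      · refine ⟨0, ?_⟩
        rintro _ ⟨q, _, rfl⟩
        exact (norm_nonneg _).trans (le_max_left _ _)
      · exact ⟨(e 0, T), ⟨norm_e 0, norm_T, norm_T_e0⟩, rfl⟩
    refine h1.trans (max_le ?_ ?_)
    · have h2 := norm_sub_le p.1 (e 0)
      rw [norm_e, hp.1] at h2
      linarith
    · have h2 := norm_sub_le p.2 T
      rw [norm_T, hp.2.1] at h2
      linarith
  refine le_trans ?_ (le_csSup ⟨2, hbdd⟩ ⟨(x₀, T), ⟨norm_x₀, norm_T, ?_⟩, rfl⟩)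
  · apply le_csInf
    · exact ⟨_, (e 0, T), ⟨norm_e 0, norm_T, norm_T_e0⟩, rfl⟩
    · rintro _ ⟨⟨z, F⟩, ⟨h1, h2, h3⟩, rfl⟩
      by_contra h
      push Not at h
      rw [max_lt_iff] at h
      exact no_close h1 h2 h3 h.1 h.2
  · have := norm_T_x₀
    change 1 - 19 / 20 < ‖T x₀‖
    linarith

/-- There are `ρ ∈ [0, 1)`, real Banach spaces `X`, `Y` such that `Y` has property beta with
constant `ρ`, and `ε ∈ (0, 1)` such that the spherical Bishop-Phelps-Bollobas modulus of `(X, Y)`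
at `ε` exceeds `min (√(2 ε) √((1 + ρ) / (1 - ρ))) 1`; in fact it is at least `11 / 10`. -/
theorem result : ∃ (ρ : ℝ) (X Y : Type) (_ : NormedAddCommGroup X) (_ : NormedSpace ℝ X)
    (_ : CompleteSpace X) (_ : NormedAddCommGroup Y) (_ : NormedSpace ℝ Y) (_ : CompleteSpace Y)
    (ε : ℝ), 0 ≤ ρ ∧ ρ < 1 ∧ HasPropertyBeta Y ρ ∧ 0 < ε ∧ ε < 1 ∧
    min (√(2 * ε) * √((1 + ρ) / (1 - ρ))) 1 < PhiS X Y ε ∧ 11 / 10 ≤ PhiS X Y ε := by
  refine ⟨5 / 7, X, Y, inferInstance, inferInstance, inferInstance, inferInstance, inferInstance,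
    inferInstance, 19 / 20, by norm_num, by norm_num, beta, by norm_num, by norm_num, ?_, modulus⟩
  refine lt_of_le_of_lt (min_le_right _ _) (lt_of_lt_of_le ?_ modulus)
  norm_num

end Pool.Agent.Results.MP_c24244_an.OctagonCounterexample
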